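import Mathlib

set_option autoImplicit false
open Finset

namespace Pool.Agent.Results.MP_8dd099_nt.InfinitelyManyDeficient

/-- `KL(n) = ∑_{d ∣ n} d * log (d / (2 φ(d)))`. -/
noncomputable def KL (n : ℕ) : ℝ :=
  ∑ d ∈ n.divisors, (d:ℝ) * Real.log ((d:ℝ) / (2 * (Nat.totient d : ℝ)))

/-- A positive integer `n` is deficient if the sum of its divisors is less than `2n`. -/
def IsDeficient (n : ℕ) : Prop := 0 < n ∧ ∑ d ∈ n.divisors, d < 2 * n

/-- A positive integer `n` is KL-primitive if `KL(n) ≥ 0` and `KL(d) < 0` for every proper divisor `d`. -/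
def IsKLPrimitive (n : ℕ) : Prop := 0 < n ∧ 0 ≤ KL n ∧ ∀ d : ℕ, d ∣ n → d < n → KL d < 0

/-- auxiliary: `∑_{d ∣ n} d log (d / φ d)` -/
noncomputable def F (n : ℕ) : ℝ :=
  ∑ d ∈ n.divisors, (d:ℝ) * Real.log ((d:ℝ) / (Nat.totient d : ℝ))

/-- real-valued divisor sum -/
noncomputable def sg (n : ℕ) : ℝ := ∑ d ∈ n.divisors, (d:ℝ)

lemma KL_eq (n : ℕ) : KL n = F n - sg n * Real.log 2 := by
  unfold KL F sg
  rw [Finset.sum_mul, ← Finset.sum_sub_distrib]
  apply Finset.sum_congr rfl
  intro d hd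
  have hd0 : 0 < d := Nat.pos_of_mem_divisors hd
  have hd1 : (0:ℝ) < d := by exact_mod_cast hd0
  have hphi : (0:ℝ) < d.totient := by exact_mod_cast Nat.totient_pos.2 hd0
  have : (d:ℝ) / (2 * (Nat.totient d : ℝ)) = ((d:ℝ) / Nat.totient d) / 2 := by field_simp
  rw [this, Real.log_div (by positivity) (by norm_num)]
  ring

lemma sum_coprime {m n : ℕ} (h : m.Coprime n) (f : ℕ → ℝ) :
    ∑ d ∈ (m * n).divisors, f d = ∑ a ∈ m.divisors, ∑ b ∈ n.divisors, f (a * b) := by
  rw [Nat.divisors_mul, Finset.mul_def, Finset.sum_image h.mul_injOn_divisors, Finset.sum_product]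

lemma sg_mul {m n : ℕ} (h : m.Coprime n) : sg (m * n) = sg m * sg n := by
  unfold sg
  rw [sum_coprime h (fun d => (d:ℝ)), Finset.sum_mul_sum]
  push_cast; rfl

lemma F_mul {m n : ℕ} (h : m.Coprime n) : F (m * n) = sg n * F m + sg m * F n := by
  unfold F sg
  rw [sum_coprime h (fun d => (d:ℝ) * Real.log ((d:ℝ) / (Nat.totient d : ℝ)))]
  have key : ∀ a ∈ m.divisors, ∀ b ∈ n.divisors,
      (((a * b : ℕ):ℝ) * Real.log (((a * b : ℕ):ℝ) / (Nat.totient (a * b) : ℝ))) =
      (b:ℝ) * ((a:ℝ) * Real.log ((a:ℝ) / (Nat.totient a : ℝ))) +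
      (a:ℝ) * ((b:ℝ) * Real.log ((b:ℝ) / (Nat.totient b : ℝ))) := by
    intro a ha b hb
    have ha0 := Nat.pos_of_mem_divisors ha
    have hb0 := Nat.pos_of_mem_divisors hb
    have hab : a.Coprime b := (h.coprime_dvd_left (Nat.dvd_of_mem_divisors ha)).coprime_dvd_right
      (Nat.dvd_of_mem_divisors hb)
    have h1 : (0:ℝ) < a := by exact_mod_cast ha0
    have h2 : (0:ℝ) < b := by exact_mod_cast hb0
    have h3 : (0:ℝ) < a.totient := by exact_mod_cast Nat.totient_pos.2 ha0
    have h4 : (0:ℝ) < b.totient := by exact_mod_cast Nat.totient_pos.2 hb0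
    rw [Nat.totient_mul hab]
    push_cast
    have : (a:ℝ) * b / (a.totient * b.totient) = (a / a.totient) * (b / b.totient) := by
      field_simp
    rw [this, Real.log_mul (by positivity) (by positivity)]
    ring
  calc ∑ a ∈ m.divisors, ∑ b ∈ n.divisors,
      (((a * b : ℕ):ℝ) * Real.log (((a * b : ℕ):ℝ) / (Nat.totient (a * b) : ℝ)))
      = ∑ a ∈ m.divisors, ∑ b ∈ n.divisors, ((b:ℝ) * ((a:ℝ) * Real.log ((a:ℝ) / (Nat.totient a : ℝ))) +
      (a:ℝ) * ((b:ℝ) * Real.log ((b:ℝ) / (Nat.totient b : ℝ)))) :=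
        Finset.sum_congr rfl (fun a ha => Finset.sum_congr rfl (fun b hb => key a ha b hb))
    _ = _ := by
      simp only [Finset.sum_add_distrib, ← Finset.mul_sum, ← Finset.sum_mul]

lemma KL_mul {m n : ℕ} (h : m.Coprime n) : KL (m * n) = sg n * KL m + sg m * F n := by
  rw [KL_eq, KL_eq, F_mul h, sg_mul h]; ring

lemma sg_two_pow (a : ℕ) : sg (2^a) = 2^(a+1) - 1 := by
  unfold sg
  rw [Nat.sum_divisors_prime_pow Nat.prime_two]
  push_cast
  have := geom_sum_eq (x := (2:ℝ)) (by norm_num) (a+1)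
  rw [this]; norm_num

lemma F_two_pow (a : ℕ) : F (2^a) = (2^(a+1) - 2) * Real.log 2 := by
  unfold F
  rw [Nat.sum_divisors_prime_pow Nat.prime_two, Finset.sum_range_succ']
  have h0 : ((2^0:ℕ):ℝ) * Real.log (((2^0:ℕ):ℝ) / (Nat.totient (2^0) : ℝ)) = 0 := by simp
  rw [h0, add_zero]
  have h1 : ∀ i ∈ Finset.range a, ((2^(i+1):ℕ):ℝ) * Real.log (((2^(i+1):ℕ):ℝ) / (Nat.totient (2^(i+1)) : ℝ))
      = 2^(i+1) * Real.log 2 := by
    intro i _
    rw [Nat.totient_prime_pow_succ Nat.prime_two]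
    push_cast
    congr 2
    norm_num
    rw [pow_succ]; field_simp
  rw [Finset.sum_congr rfl h1, ← Finset.sum_mul]
  congr 1
  have : ∑ i ∈ Finset.range a, (2:ℝ)^(i+1) = 2 * ∑ i ∈ Finset.range a, (2:ℝ)^i := by
    rw [Finset.mul_sum]; apply Finset.sum_congr rfl; intro i _; ring
  rw [this, geom_sum_eq (by norm_num)]; ring

lemma KL_two_pow (a : ℕ) : KL (2^a) = - Real.log 2 := by
  rw [KL_eq, F_two_pow, sg_two_pow]; ring

lemma sg_prime {p : ℕ} (hp : p.Prime) : sg p = p + 1 := by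
  unfold sg
  rw [Nat.Prime.sum_divisors hp]
  push_cast; ring

lemma F_prime {p : ℕ} (hp : p.Prime) : F p = p * Real.log ((p:ℝ) / (p - 1)) := by
  unfold F
  rw [Nat.Prime.sum_divisors hp, Nat.totient_prime hp]
  have : ((p - 1 : ℕ) : ℝ) = (p:ℝ) - 1 := by
    rw [Nat.cast_sub hp.one_le]; simp
  rw [this]; simp

/-- `u p = p log (p/(p-1)) / (p+1)` -/
noncomputable def u (p : ℕ) : ℝ := p * Real.log ((p:ℝ) / (p - 1)) / (p + 1)

lemma u_lower {p : ℕ} (hp : p.Prime) : 1 / ((p:ℝ) + 1) ≤ u p := by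
  have h2 : (2:ℝ) ≤ p := by exact_mod_cast hp.two_le
  unfold u
  apply div_le_div_of_nonneg_right _ (by positivity)
  have h3 : (0:ℝ) < p / (p - 1) := by apply div_pos <;> linarith
  have h4 := Real.one_sub_inv_le_log_of_pos h3
  rw [inv_div] at h4
  have h5 : 1 - ((p:ℝ) - 1) / p = 1 / p := by field_simp; ring
  rw [h5] at h4
  calc (1:ℝ) = p * (1 / p) := by field_simp
    _ ≤ _ := mul_le_mul_of_nonneg_left h4 (by positivity)

lemma u_upper {p : ℕ} (hp : p.Prime) : u p ≤ p / ((p:ℝ)^2 - 1) := by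
  have h2 : (2:ℝ) ≤ p := by exact_mod_cast hp.two_le
  unfold u
  have h3 : (0:ℝ) < p / (p - 1) := by apply div_pos <;> linarith
  have h4 := Real.log_le_sub_one_of_pos h3
  have h5 : (p:ℝ) / (p - 1) - 1 = 1 / (p - 1) := by
    have : (p:ℝ) - 1 ≠ 0 := by linarith
    field_simp; ring
  rw [h5] at h4
  have h6 : (p:ℝ) / (p^2 - 1) = p * (1 / (p - 1)) / (p + 1) := by
    have h7 : (p:ℝ) - 1 ≠ 0 := by linarith
    have h8 : (p:ℝ) + 1 ≠ 0 := by positivity
    have : (p:ℝ)^2 - 1 = (p - 1) * (p + 1) := by ring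
    rw [this]; field_simp
  rw [h6]
  apply div_le_div_of_nonneg_right _ (by positivity)
  exact mul_le_mul_of_nonneg_left h4 (by positivity)

lemma u_nonneg {p : ℕ} (hp : p.Prime) : 0 ≤ u p := le_trans (by positivity) (u_lower hp)

lemma coprime_two_pow {p : ℕ} (hp : p.Prime) (hp2 : p ≠ 2) (a : ℕ) : (2^a).Coprime p := by
  apply Nat.Coprime.pow_left
  exact (Nat.coprime_primes Nat.prime_two hp).2 (Ne.symm hp2)

lemma KL_one_prime {p : ℕ} (hp : p.Prime) (hp2 : p ≠ 2) (a : ℕ) :
    KL (2^a * p) = (p + 1) * ((2^(a+1) - 1) * u p - Real.log 2) := by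
  rw [KL_mul (coprime_two_pow hp hp2 a), KL_two_pow, sg_prime hp, F_prime hp, sg_two_pow]
  unfold u
  have : (p:ℝ) + 1 ≠ 0 := by positivity
  field_simp
  ring

lemma KL_two_primes {p q : ℕ} (hp : p.Prime) (hp2 : p ≠ 2) (hq : q.Prime) (hq2 : q ≠ 2) (hpq : p ≠ q) (a : ℕ) :
    KL (2^a * p * q) = (p + 1) * (q + 1) * ((2^(a+1) - 1) * (u p + u q) - Real.log 2) := by
  have hc : (2^a * p).Coprime q := Nat.Coprime.mul_left (coprime_two_pow hq hq2 a)
    ((Nat.coprime_primes hp hq).2 hpq)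
  rw [KL_mul hc, KL_one_prime hp hp2, sg_prime hq, F_prime hq, sg_mul (coprime_two_pow hp hp2 a),
    sg_two_pow, sg_prime hp]
  unfold u
  have : (p:ℝ) + 1 ≠ 0 := by positivity
  have : (q:ℝ) + 1 ≠ 0 := by positivity
  field_simp
  ring

lemma deficient_of_sg {n : ℕ} (hn : 0 < n) (h : sg n < 2 * n) : IsDeficient n := by
  refine ⟨hn, ?_⟩
  unfold sg at h
  have h2 : ((∑ d ∈ n.divisors, d : ℕ) : ℝ) < ((2 * n : ℕ) : ℝ) := by push_cast; exact h
  exact_mod_cast h2

lemma frac_le {x : ℝ} (hx : 128 ≤ x) : x / (x^2 - 1) ≤ 1.1 / x := by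
  have h1 : 0 < x^2 - 1 := by nlinarith
  rw [div_le_div_iff₀ h1 (by linarith)]; nlinarith

/-- The main construction. -/
lemma exists_good (a : ℕ) (ha : 6 ≤ a) : ∃ n : ℕ, 2^a ≤ n ∧ IsDeficient n ∧ IsKLPrimitive n := by
  set S : ℕ := 2^(a+1) - 1 with hS
  have h64 : 128 ≤ 2^(a+1) := by
    calc 128 = 2^7 := by norm_num
      _ ≤ 2^(a+1) := Nat.pow_le_pow_right (by norm_num) (by omega)
  have hS127 : 127 ≤ S := by omega
  set s : ℝ := 2^(a+1) - 1 with hs
  have hsS : (S:ℝ) = s := by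
    rw [hS, hs, Nat.cast_sub (by omega)]; push_cast; ring
  have hs127 : (127:ℝ) ≤ s := by rw [← hsS]; exact_mod_cast hS127
  have hl1 : 0.6931471803 < Real.log 2 := Real.log_two_gt_d9
  have hl2 : Real.log 2 < 0.6931471808 := Real.log_two_lt_d9
  obtain ⟨p, hp, hSp, hp2S⟩ := Nat.exists_prime_lt_and_le_two_mul S (by omega)
  have hp2 : p ≠ 2 := by omega
  have hpr1 : s + 1 ≤ p := by
    rw [← hsS]; exact_mod_cast hSp
  have hpr2 : (p:ℝ) ≤ 2 * s := by rw [← hsS]; exact_mod_cast hp2S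
  have hppos : (0:ℝ) < p := by linarith
  have hup := u_upper hp
  have hulow := u_lower hp
  have hu0 := u_nonneg hp
  -- bounds for smaller powers of two
  have hpow : ∀ i, i < a → (2:ℝ)^(i+1) - 1 ≤ (s - 1) / 2 := by
    intro i hi
    have h1 : (2:ℝ)^(i+1) ≤ 2^a := pow_le_pow_right₀ (by norm_num) (by omega)
    have h2 : (2:ℝ)^(a+1) = 2 * 2^a := by ring
    rw [hs, h2]; linarith
  have hpow' : ∀ i, i ≤ a → (2:ℝ)^(i+1) - 1 ≤ s := by
    intro i hi
    have h1 : (2:ℝ)^(i+1) ≤ 2^(a+1) := pow_le_pow_right₀ (by norm_num) (by omega)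
    rw [hs]; linarith
  have hpow0 : ∀ i : ℕ, 0 ≤ (2:ℝ)^(i+1) - 1 := by
    intro i
    have : (1:ℝ) ≤ 2^(i+1) := one_le_pow₀ (by norm_num)
    linarith
  have hpsq : (0:ℝ) < (p:ℝ)^2 - 1 := by nlinarith
  by_cases hcase : Real.log 2 ≤ s * u p
  · -- n = 2^a p
    refine ⟨2^a * p, Nat.le_mul_of_pos_right _ hp.pos, ?_, ?_⟩
    · apply deficient_of_sg (by have := hp.pos; positivity)
      rw [sg_mul (coprime_two_pow hp hp2 a), sg_two_pow, sg_prime hp]
      push_cast
      rw [← hs]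
      have h2a : (2:ℝ) * (2^a * p) = (s + 1) * p := by rw [hs]; ring
      rw [h2a]; nlinarith
    · refine ⟨by have := hp.pos; positivity, ?_, ?_⟩
      · rw [KL_one_prime hp hp2, ← hs]
        apply mul_nonneg (by positivity); linarith
      · intro d hd hdn
        obtain ⟨d1, d2, hd1, hd2, rfl⟩ := Nat.dvd_mul.1 hd
        obtain ⟨i, hi, rfl⟩ := (Nat.dvd_prime_pow Nat.prime_two).1 hd1
        rcases (Nat.dvd_prime hp).1 hd2 with rfl | rfl
        · rw [mul_one, KL_two_pow]; linarith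
        · have hia : i < a := by
            by_contra hcon
            have : i = a := by omega
            subst this; exact lt_irrefl _ hdn
          rw [KL_one_prime hp hp2]
          apply mul_neg_of_pos_of_neg (by positivity)
          have h1 := hpow i hia
          have h3 : ((2:ℝ)^(i+1) - 1) * u d2 ≤ (s - 1)/2 * (d2 / ((d2:ℝ)^2 - 1)) :=
            mul_le_mul h1 hup hu0 (by linarith)
          have h4 : (s - 1)/2 * ((d2:ℝ) / ((d2:ℝ)^2 - 1)) ≤ 1/2 := by
            rw [← mul_div_assoc, div_le_iff₀ hpsq]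
            nlinarith
          linarith
  · push Not at hcase
    -- n = 2^a p q
    have hsp : s < (p + 1) * Real.log 2 := by
      have : s * (1 / ((p:ℝ)+1)) ≤ s * u p := mul_le_mul_of_nonneg_left hulow (by linarith)
      have h1 : s * (1 / ((p:ℝ)+1)) < Real.log 2 := lt_of_le_of_lt this hcase
      rw [mul_one_div, div_lt_iff₀ (by positivity)] at h1
      linarith
    have hpS : (0:ℝ) < p - s := by linarith
    set V : ℝ := s * (p + 1) / (p - s) with hV
    have hVp : (p:ℝ) + 1 ≤ V := by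
      rw [hV, le_div_iff₀ hpS]
      nlinarith
    have hVpos : 0 < V := by linarith
    obtain ⟨q, hq, hq1, hq2⟩ := Nat.exists_prime_lt_and_le_two_mul ⌊V⌋₊
      (by
        have : 1 ≤ ⌊V⌋₊ := Nat.le_floor (by push_cast; linarith)
        omega)
    have hqV : V < q := by
      have := Nat.lt_of_floor_lt hq1
      exact this
    have hq2V : (q:ℝ) ≤ 2 * V := by
      have h1 : (q:ℝ) ≤ 2 * (⌊V⌋₊ : ℝ) := by exact_mod_cast hq2
      have h2 := Nat.floor_le hVpos.le
      linarith
    have hpq : p ≠ q := by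
      rintro rfl; linarith
    have hq2' : q ≠ 2 := by
      rintro rfl; push_cast at hqV; linarith
    have hpqlt : (p:ℝ) + 2 ≤ q := by
      have h1 : (p:ℝ) + 1 < q := by linarith
      have h2 : p + 1 < q := by exact_mod_cast h1
      have h3 : p + 2 ≤ q := by omega
      exact_mod_cast h3
    have huq := u_upper hq
    have huqlow := u_lower hq
    have huq0 := u_nonneg hq
    have hqsq : (0:ℝ) < (q:ℝ)^2 - 1 := by nlinarith
    have hqpos : (0:ℝ) < q := by linarith
    -- deficiency inequality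
    have hdef : s * (p + q + 1) < p * q := by
      rw [hV, div_lt_iff₀ hpS] at hqV
      nlinarith
    refine ⟨2^a * p * q, ?_, ?_, ?_⟩
    · rw [mul_assoc]; exact Nat.le_mul_of_pos_right _ (Nat.mul_pos hp.pos hq.pos)
    · apply deficient_of_sg (by have := hp.pos; have := hq.pos; positivity)
      have hc : (2^a * p).Coprime q := Nat.Coprime.mul_left (coprime_two_pow hq hq2' a)
        ((Nat.coprime_primes hp hq).2 hpq)
      rw [sg_mul hc, sg_mul (coprime_two_pow hp hp2 a), sg_two_pow, sg_prime hp, sg_prime hq]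
      push_cast
      rw [← hs]
      have h2a : (2:ℝ) * (2^a * p * q) = (s + 1) * (p * q) := by rw [hs]; ring
      rw [h2a]; nlinarith
    · refine ⟨by have := hp.pos; have := hq.pos; positivity, ?_, ?_⟩
      · rw [KL_two_primes hp hp2 hq hq2' hpq, ← hs]
        apply mul_nonneg (by positivity)
        -- s (u p + u q) ≥ log 2
        have hA : s * (1 / ((p:ℝ)+1)) ≤ s * u p := mul_le_mul_of_nonneg_left hulow (by linarith)
        have hB : s * (1 / ((q:ℝ)+1)) ≤ s * u q := mul_le_mul_of_nonneg_left huqlow (by linarith)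
        have hmain : Real.log 2 ≤ s * (1 / ((p:ℝ)+1)) + s * (1 / ((q:ℝ)+1)) := by
          have hq3 : (q:ℝ) + 1 ≤ 2.5 * V := by nlinarith
          have hq4 : s / (2.5 * V) ≤ s * (1 / ((q:ℝ)+1)) := by
            rw [mul_one_div]
            apply div_le_div_of_nonneg_left (by linarith) (by positivity) hq3
          have hV2 : s / (2.5 * V) = (p - s) / (2.5 * (p + 1)) := by
            rw [hV]
            have h1 : s ≠ 0 := by linarith
            have h2 : (p:ℝ) - s ≠ 0 := by linarith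
            have h3 : (p:ℝ) + 1 ≠ 0 := by positivity
            field_simp
          rw [hV2] at hq4
          have hfin : Real.log 2 ≤ s * (1 / ((p:ℝ)+1)) + (p - s) / (2.5 * (p + 1)) := by
            have h3 : (0:ℝ) < (p:ℝ) + 1 := by positivity
            have : s * (1 / ((p:ℝ)+1)) + (p - s) / (2.5 * (p + 1)) = (2.5 * s + (p - s)) / (2.5 * (p + 1)) := by
              field_simp
            rw [this, le_div_iff₀ (by positivity)]
            nlinarith
          linarith
        linarith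
      · intro d hd hdn
        obtain ⟨d12, d3, hd12, hd3, rfl⟩ := Nat.dvd_mul.1 hd
        obtain ⟨d1, d2, hd1, hd2, rfl⟩ := Nat.dvd_mul.1 hd12
        obtain ⟨i, hi, rfl⟩ := (Nat.dvd_prime_pow Nat.prime_two).1 hd1
        have hi1 := hpow' i hi
        have hi0 := hpow0 i
        rcases (Nat.dvd_prime hp).1 hd2 with rfl | rfl
        · rcases (Nat.dvd_prime hq).1 hd3 with rfl | rfl
          · rw [mul_one, mul_one, KL_two_pow]; linarith
          · rw [mul_one, KL_one_prime hq hq2']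
            apply mul_neg_of_pos_of_neg (by positivity)
            have h3 : ((2:ℝ)^(i+1) - 1) * u d3 ≤ s * (d3 / ((d3:ℝ)^2 - 1)) :=
              mul_le_mul hi1 huq huq0 (by linarith)
            have h4 : s * ((d3:ℝ) / ((d3:ℝ)^2 - 1)) ≤ s * (1 / ((p:ℝ)+1)) := by
              apply mul_le_mul_of_nonneg_left _ (by linarith)
              rw [div_le_div_iff₀ hqsq (by positivity)]
              nlinarith
            have h5 : s * (1 / ((p:ℝ)+1)) < Real.log 2 := by
              rw [mul_one_div, div_lt_iff₀ (by positivity)]; linarith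
            linarith
        · rcases (Nat.dvd_prime hq).1 hd3 with rfl | rfl
          · rw [mul_one, KL_one_prime hp hp2]
            apply mul_neg_of_pos_of_neg (by positivity)
            have h3 : ((2:ℝ)^(i+1) - 1) * u d2 ≤ s * u d2 := mul_le_mul_of_nonneg_right hi1 hu0
            linarith
          · have hia : i < a := by
              by_contra hcon
              have : i = a := by omega
              subst this; exact lt_irrefl _ hdn
            rw [KL_two_primes hp hp2 hq hq2' hpq]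
            apply mul_neg_of_pos_of_neg (by positivity)
            have h1 := hpow i hia
            have h3 : ((2:ℝ)^(i+1) - 1) * (u d2 + u d3) ≤
                (s - 1)/2 * ((d2 / ((d2:ℝ)^2 - 1)) + (d3 / ((d3:ℝ)^2 - 1))) :=
              mul_le_mul h1 (add_le_add hup huq) (add_nonneg hu0 huq0) (by linarith)
            have e1 : (d2:ℝ) / ((d2:ℝ)^2 - 1) ≤ 1.1 / d2 := frac_le (by linarith)
            have e2 : (d3:ℝ) / ((d3:ℝ)^2 - 1) ≤ 1.1 / d3 := frac_le (by linarith)
            have e3 : s * (1.1 / (d2:ℝ) + 1.1 / d3) ≤ 1.1 := by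
              have : s * (1.1 / (d2:ℝ) + 1.1 / d3) = 1.1 * (s * (d2 + d3)) / (d2 * d3) := by
                field_simp; ring
              rw [this, div_le_iff₀ (by positivity)]
              have : s * ((d2:ℝ) + d3) ≤ d2 * d3 := by linarith
              linarith
            have e4 : (s - 1)/2 * ((d2 / ((d2:ℝ)^2 - 1)) + (d3 / ((d3:ℝ)^2 - 1))) ≤
                (s - 1)/2 * (1.1 / (d2:ℝ) + 1.1 / d3) :=
              mul_le_mul_of_nonneg_left (add_le_add e1 e2) (by linarith)
            have e5 : (0:ℝ) ≤ 1.1 / (d2:ℝ) + 1.1 / d3 := by positivity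
            have e6 : (s - 1)/2 * (1.1 / (d2:ℝ) + 1.1 / d3) ≤ s/2 * (1.1 / (d2:ℝ) + 1.1 / d3) :=
              mul_le_mul_of_nonneg_right (by linarith) e5
            have e7 : s/2 * (1.1 / (d2:ℝ) + 1.1 / d3) = (s * (1.1 / (d2:ℝ) + 1.1 / d3)) / 2 := by ring
            linarith

/-- There are infinitely many positive integers that are both deficient and KL-primitive. -/
theorem result : {n : ℕ | IsDeficient n ∧ IsKLPrimitive n}.Infinite := by
  rw [Set.infinite_iff_exists_gt]
  intro N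
  obtain ⟨n, h1, h2, h3⟩ := exists_good (N + 6) (by omega)
  refine ⟨n, ⟨h2, h3⟩, ?_⟩
  have : N + 6 < 2^(N+6) := Nat.lt_two_pow_self
  omega

end Pool.Agent.Results.MP_8dd099_nt.InfinitelyManyDeficient
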